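import Pool.Agent.Helper26.CovL.Syn

set_option autoImplicit false

/-!
Linear covering codes: the choice of parameters and the density estimate.
-/

namespace Pool.Agent.Helper26.CovL

open Classical

/-- The size of a Hamming ball. -/
theorem card_ball_le (n r : ℕ) :
    (Finset.univ.filter (fun x : Fin n → ZMod 2 => hammingNorm x ≤ r)).card ≤
      (n + r).choose r := by
  have h2 : ∀ a : ZMod 2, a ≠ 0 → a = 1 := by decide
  calc (Finset.univ.filter (fun x : Fin n → ZMod 2 => hammingNorm x ≤ r)).card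
      ≤ ((Finset.range (r + 1)).biUnion
          (fun i => Finset.powersetCard i (Finset.univ : Finset (Fin n)))).card := by
        apply Finset.card_le_card_of_injOn (fun x => Finset.univ.filter (fun i => x i ≠ 0))
        · intro x hx
          simp only [Finset.coe_filter, Finset.mem_univ, true_and, Set.mem_ofPred_eq] at hx
          simp only [Finset.coe_biUnion, Set.mem_iUnion, Finset.mem_coe, Finset.mem_powersetCard,
            Finset.mem_range, exists_prop]
          exact ⟨_, Nat.lt_succ_of_le hx, Finset.subset_univ _, rfl⟩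
        · intro x _ y _ hxy
          ext i
          have h1 : (x i ≠ 0) ↔ (y i ≠ 0) := by
            have := Finset.ext_iff.1 hxy i
            simpa using this
          by_cases hx : x i = 0
          · have hy : y i = 0 := by
              by_contra hy
              exact (h1.2 hy) hx
            rw [hx, hy]
          · rw [h2 _ hx, h2 _ (h1.1 hx)]
    _ ≤ ∑ i ∈ Finset.range (r + 1), n.choose i := by
        refine Finset.card_biUnion_le.trans (le_of_eq ?_)
        apply Finset.sum_congr rfl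
        intro i _
        rw [Finset.card_powersetCard, Finset.card_univ, Fintype.card_fin]
    _ ≤ (n + r).choose r := by
        rw [Nat.add_choose_eq, Finset.Nat.sum_antidiagonal_eq_sum_range_succ
          (fun a b => n.choose a * r.choose b)]
        apply Finset.sum_le_sum
        intro i hi
        have : 0 < r.choose (r - i) := Nat.choose_pos (Nat.sub_le _ _)
        exact Nat.le_mul_of_pos_right _ this

theorem exists_index (r : ℕ) (hr : 1 ≤ r) (a : ℕ → ℕ) (ha : ∀ c, 1 ≤ a c) (C0 j0 n : ℕ)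
    (hn : a (C0 + j0 % r) * 2 ^ (j0 / r) ≤ n) :
    ∃ j, j0 ≤ j ∧ a (C0 + j % r) * 2 ^ (j / r) ≤ n ∧
      n < a (C0 + (j + 1) % r) * 2 ^ ((j + 1) / r) := by
  by_contra hcon
  push Not at hcon
  have hall : ∀ d, a (C0 + (j0 + d) % r) * 2 ^ ((j0 + d) / r) ≤ n := by
    intro d
    induction d with
    | zero => exact hn
    | succ d ih => exact hcon (j0 + d) (by omega) ih
  have hrpos : 0 < r := hr
  have h1 := hall (r * (n + 1 + j0) - j0)
  have h2 : j0 + (r * (n + 1 + j0) - j0) = r * (n + 1 + j0) := by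
    have : 1 * (n + 1 + j0) ≤ r * (n + 1 + j0) := Nat.mul_le_mul_right _ hr
    omega
  rw [h2, Nat.mul_div_cancel_left _ hrpos] at h1
  have h3 : 2 ^ (n + 1 + j0) ≤ n := by
    refine le_trans ?_ h1
    exact Nat.le_mul_of_pos_left _ (ha _)
  have h4 : n + 1 + j0 < 2 ^ (n + 1 + j0) := Nat.lt_two_pow_self
  omega

theorem exists_large_choose (r : ℕ) (hr : 1 ≤ r) (X : ℝ) : ∃ m : ℕ, X < m.choose r := by
  obtain ⟨y, hy⟩ := exists_nat_gt X
  refine ⟨r + Nat.factorial r * (y + 1), hy.trans_le ?_⟩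
  have h1 := Nat.pow_le_choose (α := ℝ) r (r + Nat.factorial r * (y + 1))
  have h2 : r + Nat.factorial r * (y + 1) + 1 - r = Nat.factorial r * (y + 1) + 1 := by omega
  rw [h2] at h1
  have h3 : ((Nat.factorial r * (y + 1) + 1 : ℕ) : ℝ) ≤
      ((Nat.factorial r * (y + 1) + 1 : ℕ) : ℝ) ^ r := by
    apply le_self_pow₀ _ (by omega)
    exact_mod_cast Nat.le_add_left 1 _
  have hf : (0 : ℝ) < Nat.factorial r := by exact_mod_cast Nat.factorial_pos r
  refine le_trans ?_ h1
  rw [le_div_iff₀ hf]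
  refine le_trans ?_ h3
  push_cast
  nlinarith

/-- a starting length is at least of order `r ^ 2` -/
theorem large_start (r K C0 c a : ℕ) (hr : 1 ≤ r)
    (hC0 : (Real.exp 1 * (K * (r + 1) + 1)) ^ r ≤ (2 : ℝ) ^ C0) (hC2 : 2 ≤ C0) (hc : C0 ≤ c)
    (ha : (c : ℝ) * Real.log 2 * 2 ^ c < a.choose r) : K * (r * (r + 1)) + r ≤ a := by
  by_contra hcon
  push Not at hcon
  have hrr : (0 : ℝ) < r := by exact_mod_cast hr
  have h1 : (a.choose r : ℝ) ≤ (a : ℝ) ^ r / Nat.factorial r := Nat.choose_le_pow_div r a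
  have h2 : (a : ℝ) ≤ r * (K * (r + 1) + 1) := by
    have : a ≤ r * (K * (r + 1) + 1) := by
      have : r * (K * (r + 1) + 1) = K * (r * (r + 1)) + r := by ring
      omega
    exact_mod_cast this
  have h3 : (a : ℝ) ^ r / Nat.factorial r ≤ (Real.exp 1 * (K * (r + 1) + 1)) ^ r := by
    have h4 : (a : ℝ) ^ r ≤ (r : ℝ) ^ r * (K * (r + 1) + 1) ^ r := by
      rw [← mul_pow]
      exact pow_le_pow_left₀ (Nat.cast_nonneg _) h2 r
    have h5 : (r : ℝ) ^ r / Nat.factorial r ≤ Real.exp 1 ^ r := by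
      have := Real.pow_div_factorial_le_exp (x := (r : ℝ)) hrr.le r
      rwa [← Real.exp_one_pow r] at this
    calc (a : ℝ) ^ r / Nat.factorial r
        ≤ ((r : ℝ) ^ r * (K * (r + 1) + 1) ^ r) / Nat.factorial r := by
          gcongr
      _ = ((r : ℝ) ^ r / Nat.factorial r) * (K * (r + 1) + 1) ^ r := by ring
      _ ≤ Real.exp 1 ^ r * (K * (r + 1) + 1) ^ r := by
          gcongr
      _ = _ := by rw [← mul_pow]
  have h6 : (2 : ℝ) ^ C0 ≤ (c : ℝ) * Real.log 2 * 2 ^ c := by
    have h7 : (2 : ℝ) ^ C0 ≤ 2 ^ c := pow_le_pow_right₀ (by norm_num) hc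
    have h8 : (1 : ℝ) ≤ (c : ℝ) * Real.log 2 := by
      have : (0.6931471803 : ℝ) < Real.log 2 := Real.log_two_gt_d9
      have h9 : (2 : ℝ) ≤ c := by exact_mod_cast hC2.trans hc
      nlinarith
    nlinarith [pow_pos (by norm_num : (0 : ℝ) < 2) c]
  linarith

/-- `(1 + x / y) ^ r ≤ exp` -/
theorem ratio_le (r K a : ℕ) (hK : 1 ≤ K) (hr : 1 ≤ r) (ha : K * (r * (r + 1)) + r ≤ a) :
    ((a : ℝ) + 1) ^ r ≤ Real.exp (1 / K) * ((a : ℝ) - r) ^ r := by
  have hK' : (0 : ℝ) < K := by exact_mod_cast hK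
  have hr' : (0 : ℝ) < r := by exact_mod_cast hr
  have h1 : (K : ℝ) * (r * (r + 1)) ≤ (a : ℝ) - r := by
    have : ((K * (r * (r + 1)) + r : ℕ) : ℝ) ≤ a := by exact_mod_cast ha
    push_cast at this
    linarith
  have h2 : (0 : ℝ) < (a : ℝ) - r := lt_of_lt_of_le (by positivity) h1
  have h3 : ((a : ℝ) + 1) = ((a : ℝ) - r) * (1 + (r + 1) / ((a : ℝ) - r)) := by
    field_simp
    ring
  rw [h3, mul_pow, mul_comm (Real.exp _)]
  apply mul_le_mul_of_nonneg_left _ (by positivity)
  have h4 : (1 + ((r : ℝ) + 1) / ((a : ℝ) - r)) ≤ Real.exp (((r : ℝ) + 1) / ((a : ℝ) - r)) := by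
    rw [add_comm]
    exact Real.add_one_le_exp _
  calc (1 + ((r : ℝ) + 1) / ((a : ℝ) - r)) ^ r
      ≤ Real.exp (((r : ℝ) + 1) / ((a : ℝ) - r)) ^ r := pow_le_pow_left₀ (by positivity) h4 r
    _ = Real.exp (r * (((r : ℝ) + 1) / ((a : ℝ) - r))) := by rw [← Real.exp_nat_mul]
    _ ≤ Real.exp (1 / K) := by
        rw [Real.exp_le_exp, mul_div_assoc', div_le_div_iff₀ h2 hK']
        linarith

theorem density (r K C0 : ℕ) (hr : 1 ≤ r) (hK : 1 ≤ K)
    (hC0 : (Real.exp 1 * (K * (r + 1) + 1)) ^ r ≤ (2 : ℝ) ^ C0) (hC2 : 2 ≤ C0) :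
    ∃ N : ℕ, ∀ n ≥ N, ∃ V : Submodule (ZMod 2) (Fin n → ZMod 2),
      (∀ y : Fin n → ZMod 2, ∃ v ∈ V, hammingNorm (y - v) ≤ r) ∧
      (Nat.card V : ℝ) *
        ((Finset.univ.filter (fun x : Fin n → ZMod 2 => hammingNorm x ≤ r)).card : ℝ) /
          (2 : ℝ) ^ n ≤ 2 * Real.exp (1 / K) * ((C0 + r : ℕ) * Real.log 2) := by
  have hex : ∀ c : ℕ, ∃ m : ℕ, (c : ℝ) * Real.log 2 * 2 ^ c < m.choose r := fun c =>
    exists_large_choose r hr _
  let a : ℕ → ℕ := fun c => Nat.find (hex c)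
  have hlog : (0 : ℝ) < Real.log 2 := Real.log_pos (by norm_num)
  have ha : ∀ c : ℕ, (c : ℝ) * Real.log 2 * 2 ^ c < (a c).choose r := fun c => Nat.find_spec (hex c)
  have ha1 : ∀ c, 1 ≤ a c := by
    intro c
    by_contra h
    have h0 : a c = 0 := by omega
    have := ha c
    rw [h0, Nat.choose_eq_zero_of_lt (by omega : 0 < r)] at this
    have h2 : (0 : ℝ) ≤ (c : ℝ) * Real.log 2 * 2 ^ c := by positivity
    simp only [Nat.cast_zero] at this
    linarith
  have hamin : ∀ c, ((a c - 1).choose r : ℝ) ≤ (c : ℝ) * Real.log 2 * 2 ^ c := by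
    intro c
    have hlt : a c - 1 < a c := by have := ha1 c; omega
    have := Nat.find_min (hex c) hlt
    exact not_lt.1 this
  let T0 : ℕ := (∑ c ∈ Finset.range (C0 + r), a c) + r + 1
  have hT0 : ∀ c < C0 + r, a c ≤ T0 := by
    intro c hc
    have : a c ≤ ∑ c ∈ Finset.range (C0 + r), a c :=
      Finset.single_le_sum (fun _ _ => Nat.zero_le _) (Finset.mem_range.2 hc)
    omega
  have hrpos : 0 < r := hr
  refine ⟨a (C0 + (r * T0) % r) * 2 ^ ((r * T0) / r), fun n hn => ?_⟩
  obtain ⟨j, hj0, hj1, hj2⟩ := exists_index r hr a ha1 C0 (r * T0) n hn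
  set c := C0 + j % r with hc
  set t := j / r with ht
  set c' := C0 + (j + 1) % r with hc'
  set t' := (j + 1) / r with ht'
  have hmod : j % r < r := Nat.mod_lt _ hrpos
  have hmod' : (j + 1) % r < r := Nat.mod_lt _ hrpos
  have htT : T0 ≤ t := (Nat.le_div_iff_mul_le hrpos).2 (by rw [mul_comm]; exact hj0)
  have htT' : T0 ≤ t' := htT.trans (Nat.div_le_div_right (Nat.le_succ j))
  have hpow : ∀ s, T0 ≤ s → T0 ≤ 2 ^ s := fun s hs => hs.trans Nat.lt_two_pow_self.le
  have hct : c + r * t = C0 + j := by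
    rw [hc, ht]
    have := Nat.mod_add_div j r
    omega
  have hct' : c' + r * t' = C0 + j + 1 := by
    rw [hc', ht']
    have := Nat.mod_add_div (j + 1) r
    omega
  have hca : c ≤ a c := by
    have h1 : (a c).choose r ≤ 2 ^ (a c) := Nat.choose_le_two_pow _ _
    have h2 : (2 : ℝ) ^ c < 2 ^ (a c) := by
      have h3 := ha c
      have h4 : ((a c).choose r : ℝ) ≤ 2 ^ (a c) := by exact_mod_cast h1
      have h8 : (1 : ℝ) ≤ (c : ℝ) * Real.log 2 := by
        have : (0.6931471803 : ℝ) < Real.log 2 := Real.log_two_gt_d9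
        have h9 : (2 : ℝ) ≤ c := by
          have : 2 ≤ c := by omega
          exact_mod_cast this
        nlinarith
      nlinarith [pow_pos (by norm_num : (0 : ℝ) < 2) c]
    exact ((pow_lt_pow_iff_right₀ (by norm_num : (1 : ℝ) < 2)).1 h2).le
  obtain ⟨V, hcov, hV⟩ := exists_code r (a c) c t n hca (ha c) (by omega)
    ((hT0 c (by omega)).trans (hpow t htT)) hj1
  refine ⟨V, hcov, ?_⟩
  rw [hct] at hV
  have h2n : (0 : ℝ) < 2 ^ n := by positivity
  -- ball
  have hball : ((Finset.univ.filter (fun x : Fin n → ZMod 2 => hammingNorm x ≤ r)).card : ℝ) ≤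
      (((a c' : ℝ) + 1) * 2 ^ t') ^ r / Nat.factorial r := by
    have h1 : ((Finset.univ.filter (fun x : Fin n → ZMod 2 => hammingNorm x ≤ r)).card : ℝ) ≤
        ((n + r).choose r : ℝ) := by exact_mod_cast card_ball_le n r
    refine h1.trans ((Nat.choose_le_pow_div r (n + r)).trans ?_)
    apply div_le_div_of_nonneg_right _ (by positivity)
    apply pow_le_pow_left₀ (by positivity)
    have h3 : r ≤ 2 ^ t' := by
      have := hpow t' htT'
      omega
    have h4 : n + r ≤ (a c' + 1) * 2 ^ t' := by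
      have : (a c' + 1) * 2 ^ t' = a c' * 2 ^ t' + 2 ^ t' := by ring
      omega
    exact_mod_cast h4
  have hstart := large_start r K C0 c' (a c') hr hC0 hC2 (by omega) (ha c')
  have hratio := ratio_le r K (a c') hK hr hstart
  have hmin : ((a c' : ℝ) - r) ^ r / Nat.factorial r ≤ (c' : ℝ) * Real.log 2 * 2 ^ c' := by
    refine le_trans ?_ (hamin c')
    have h1 := Nat.pow_le_choose (α := ℝ) r (a c' - 1)
    have h2 : a c' - 1 + 1 - r = a c' - r := by have := ha1 c'; omega
    have h3 : r ≤ a c' := le_trans (Nat.le_add_left _ _) hstart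
    rw [h2, Nat.cast_sub h3] at h1
    exact h1
  have hf : (0 : ℝ) < Nat.factorial r := by exact_mod_cast Nat.factorial_pos r
  have hD : ((Finset.univ.filter (fun x : Fin n → ZMod 2 => hammingNorm x ≤ r)).card : ℝ) ≤
      2 * Real.exp (1 / K) * ((C0 + r : ℕ) * Real.log 2) * 2 ^ (C0 + j) := by
    calc ((Finset.univ.filter (fun x : Fin n → ZMod 2 => hammingNorm x ≤ r)).card : ℝ)
        ≤ (((a c' : ℝ) + 1) * 2 ^ t') ^ r / Nat.factorial r := hball
      _ = (((a c' : ℝ) + 1) ^ r / Nat.factorial r) * 2 ^ (r * t') := by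
          rw [mul_pow, ← pow_mul, mul_comm t' r]
          ring
      _ ≤ (Real.exp (1 / K) * ((a c' : ℝ) - r) ^ r / Nat.factorial r) * 2 ^ (r * t') := by
          gcongr
      _ = Real.exp (1 / K) * (((a c' : ℝ) - r) ^ r / Nat.factorial r) * 2 ^ (r * t') := by ring
      _ ≤ Real.exp (1 / K) * ((c' : ℝ) * Real.log 2 * 2 ^ c') * 2 ^ (r * t') := by
          gcongr
      _ = Real.exp (1 / K) * ((c' : ℝ) * Real.log 2) * 2 ^ (c' + r * t') := by
          rw [pow_add]
          ring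
      _ = 2 * Real.exp (1 / K) * ((c' : ℝ) * Real.log 2) * 2 ^ (C0 + j) := by
          rw [hct', pow_succ]
          ring
      _ ≤ 2 * Real.exp (1 / K) * ((C0 + r : ℕ) * Real.log 2) * 2 ^ (C0 + j) := by
          have : (c' : ℝ) ≤ ((C0 + r : ℕ) : ℝ) := by
            have : c' ≤ C0 + r := by omega
            exact_mod_cast this
          gcongr
  rw [div_le_iff₀ h2n, ← hV]
  calc (Nat.card V : ℝ) *
        ((Finset.univ.filter (fun x : Fin n → ZMod 2 => hammingNorm x ≤ r)).card : ℝ)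
      ≤ (Nat.card V : ℝ) *
          (2 * Real.exp (1 / K) * ((C0 + r : ℕ) * Real.log 2) * 2 ^ (C0 + j)) :=
        mul_le_mul_of_nonneg_left hD (Nat.cast_nonneg _)
    _ = _ := by ring

end Pool.Agent.Helper26.CovL
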