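import Mathlib

set_option autoImplicit false

/-!
Linear covering codes: the greedy construction of a subspace `V` with `V + S` everything.
-/

namespace Pool.Agent.Helper26.CovL

open Module Classical

variable {X : Type*} [AddCommGroup X] [Module (ZMod 2) X] [Fintype X]


/-- The set of points not covered by the translates of `S` by `V`. -/
noncomputable def unc (S : Finset X) (V : Submodule (ZMod 2) X) : Finset X :=
  Finset.univ.filter (fun x => ∀ v ∈ V, x + v ∉ S)

theorem mem_unc (S : Finset X) (V : Submodule (ZMod 2) X) (x : X) :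
    x ∈ unc S V ↔ ∀ v ∈ V, x + v ∉ S := by
  simp [unc]

theorem unc_add (S : Finset X) (V : Submodule (ZMod 2) X) {x v : X} (hv : v ∈ V)
    (hx : x ∈ unc S V) : x + v ∈ unc S V := by
  rw [mem_unc] at *
  intro w hw
  rw [add_assoc]
  exact hx _ (V.add_mem hv hw)

theorem exists_step (S : Finset X) (V : Submodule (ZMod 2) X) (hV : V ≠ ⊤) :
    ∃ w ∉ V, ((unc S V).filter (fun x => x + w ∈ unc S V)).card * Fintype.card X ≤
      (unc S V).card ^ 2 := by

  set U := unc S V with hU
  set N := Fintype.card X with hN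
  by_contra hcon
  push Not at hcon
  let m : X → ℕ := fun w => (U.filter (fun x => x + w ∈ U)).card
  have hsum : ∑ w, m w = U.card ^ 2 := by
    have h1 : ∀ w, m w = ∑ x ∈ U, if x + w ∈ U then 1 else 0 := fun w => by
      simp only [m, Finset.card_filter]
    rw [Finset.sum_congr rfl fun w _ => h1 w, Finset.sum_comm]
    have h2 : ∀ x ∈ U, (∑ w : X, if x + w ∈ U then 1 else 0) = U.card := by
      intro x _
      rw [← Finset.card_filter]
      apply Finset.card_bij (fun w _ => x + w)
      · intro w hw
        exact (Finset.mem_filter.1 hw).2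
      · intro w _ w' _ h
        exact add_left_cancel h
      · intro y hy
        exact ⟨y - x, by simp [hy], by simp⟩
    rw [Finset.sum_congr rfl h2, Finset.sum_const, smul_eq_mul, pow_two]
  have hin : ∀ w ∈ V, m w = U.card := by
    intro w hw
    simp only [m]
    congr 1
    rw [Finset.filter_eq_self]
    intro x hx
    exact unc_add S V hw hx
  let A : Finset X := Finset.univ.filter (fun w => w ∈ V)
  let B : Finset X := Finset.univ.filter (fun w => w ∉ V)
  have hAB : ∑ w ∈ A, m w + ∑ w ∈ B, m w = U.card ^ 2 := by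
    rw [← hsum]
    exact Finset.sum_filter_add_sum_filter_not _ _ _
  have hcard : A.card + B.card = N := by
    rw [hN, ← Finset.card_univ]
    exact Finset.card_filter_add_card_filter_not _
  have hA : ∑ w ∈ A, m w = A.card * U.card := by
    rw [Finset.sum_congr rfl fun w hw => hin w (Finset.mem_filter.1 hw).2, Finset.sum_const,
      smul_eq_mul]
  have hBne : B.Nonempty := by
    obtain ⟨w, hw⟩ : ∃ w, w ∉ V := by
      by_contra h
      push Not at h
      exact hV (eq_top_iff.2 fun x _ => h x)
    exact ⟨w, Finset.mem_filter.2 ⟨Finset.mem_univ _, hw⟩⟩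
  have hB : B.card * U.card ^ 2 < (∑ w ∈ B, m w) * N := by
    rw [Finset.sum_mul, ← smul_eq_mul, ← Finset.sum_const]
    exact Finset.sum_lt_sum_of_nonempty hBne fun w hw => hcon w (Finset.mem_filter.1 hw).2
  have hUN : U.card ≤ N := Finset.card_le_univ _
  have e1 : (∑ w ∈ B, m w) + A.card * U.card = U.card ^ 2 := by rw [← hAB, hA]; ring
  have e2 : (∑ w ∈ B, m w) * N + A.card * U.card * N = U.card ^ 2 * N := by
    rw [← e1]; ring
  have e3 : U.card ^ 2 * N = A.card * U.card ^ 2 + B.card * U.card ^ 2 := by
    rw [← hcard]; ring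
  have e4 : A.card * U.card * N < A.card * U.card ^ 2 := by omega
  have e5 : A.card * U.card ^ 2 ≤ A.card * U.card * N := by
    rw [pow_two, ← mul_assoc]
    exact Nat.mul_le_mul_left _ hUN
  omega

theorem exists_greedy (S : Finset X) : ∀ k ≤ finrank (ZMod 2) X,
    ∃ V : Submodule (ZMod 2) X, finrank (ZMod 2) V = k ∧
      ((unc S V).card : ℝ) / Fintype.card X ≤
        (1 - (S.card : ℝ) / Fintype.card X) ^ (2 ^ k) := by

  have hX : (0 : ℝ) < Fintype.card X := by
    have : 0 < Fintype.card X := Fintype.card_pos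
    exact_mod_cast this
  intro k
  induction k with
  | zero =>
    intro _
    refine ⟨⊥, finrank_bot _ _, ?_⟩
    have h1 : unc S (⊥ : Submodule (ZMod 2) X) = Finset.univ \ S := by
      ext x
      simp [mem_unc]
    rw [h1, Finset.card_sdiff_of_subset (Finset.subset_univ _), Finset.card_univ,
      Nat.cast_sub (Finset.card_le_univ _), pow_zero, pow_one, sub_div, div_self hX.ne']
  | succ k ih =>
    intro hk
    obtain ⟨V, hV, hU⟩ := ih (by omega)
    have hVtop : V ≠ ⊤ := by
      rintro rfl
      rw [finrank_top] at hV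
      omega
    obtain ⟨w, hw, hstep⟩ := exists_step S V hVtop
    have hw0 : w ≠ 0 := by
      rintro rfl
      exact hw V.zero_mem
    refine ⟨V ⊔ Submodule.span (ZMod 2) {w}, ?_, ?_⟩
    · have h1 := Submodule.finrank_sup_add_finrank_inf_eq V (Submodule.span (ZMod 2) {w})
      have h2 : V ⊓ Submodule.span (ZMod 2) {w} = ⊥ := by
        rw [eq_bot_iff]
        rintro x ⟨hx1, hx2⟩
        obtain ⟨a, rfl⟩ := Submodule.mem_span_singleton.1 hx2
        by_cases ha : a = 0
        · rw [ha, zero_smul]
          exact Submodule.zero_mem _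
        · exfalso
          apply hw
          have := V.smul_mem a⁻¹ hx1
          rwa [smul_smul, inv_mul_cancel₀ ha, one_smul] at this
      rw [h2, finrank_bot, finrank_span_singleton hw0, hV] at h1
      omega
    · have hsub : unc S (V ⊔ Submodule.span (ZMod 2) {w}) ⊆
          (unc S V).filter (fun x => x + w ∈ unc S V) := by
        intro x hx
        rw [mem_unc] at hx
        have hwm : w ∈ V ⊔ Submodule.span (ZMod 2) {w} :=
          Submodule.mem_sup_right (Submodule.mem_span_singleton_self w)
        rw [Finset.mem_filter, mem_unc, mem_unc]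
        refine ⟨fun v hv => hx v (Submodule.mem_sup_left hv), fun v hv => ?_⟩
        rw [add_assoc]
        exact hx _ (Submodule.add_mem _ hwm (Submodule.mem_sup_left hv))
      have h1 : ((unc S (V ⊔ Submodule.span (ZMod 2) {w})).card : ℝ) * Fintype.card X ≤
          ((unc S V).card : ℝ) ^ 2 := by
        have := (Nat.mul_le_mul_right (Fintype.card X) (Finset.card_le_card hsub)).trans hstep
        exact_mod_cast this
      calc ((unc S (V ⊔ Submodule.span (ZMod 2) {w})).card : ℝ) / Fintype.card X
          ≤ (((unc S V).card : ℝ) / Fintype.card X) ^ 2 := by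
            rw [div_pow, div_le_div_iff₀ hX (by positivity), pow_two (Fintype.card X : ℝ),
              ← mul_assoc]
            exact mul_le_mul_of_nonneg_right h1 hX.le
        _ ≤ ((1 - (S.card : ℝ) / Fintype.card X) ^ (2 ^ k)) ^ 2 :=
            pow_le_pow_left₀ (by positivity) hU 2
        _ = _ := by rw [← pow_mul, pow_succ]

theorem exists_cover (S : Finset X) (c : ℕ) (hc : c ≤ finrank (ZMod 2) X)
    (hS : (c : ℝ) * Real.log 2 * 2 ^ c < S.card) :
    ∃ V : Submodule (ZMod 2) X, finrank (ZMod 2) V + c = finrank (ZMod 2) X ∧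
      ∀ x : X, ∃ v ∈ V, x + v ∈ S := by

  set n := finrank (ZMod 2) X with hn
  have hcardX : Fintype.card X = 2 ^ n := by
    rw [Module.card_eq_pow_finrank (K := ZMod 2) (V := X), ZMod.card]
  obtain ⟨V, hV, hU⟩ := exists_greedy S (n - c) (Nat.sub_le _ _)
  refine ⟨V, by omega, ?_⟩
  by_contra hcon
  push Not at hcon
  obtain ⟨x, hx⟩ := hcon
  have hcardV : Fintype.card V = 2 ^ (n - c) := by
    rw [Module.card_eq_pow_finrank (K := ZMod 2) (V := V), ZMod.card, hV]
  have h1 : 2 ^ (n - c) ≤ (unc S V).card := by
    rw [← hcardV, ← Finset.card_univ]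
    apply Finset.card_le_card_of_injOn (fun v : V => x + (v : X))
    · intro v _
      exact unc_add S V v.2 ((mem_unc S V x).2 hx)
    · intro v _ v' _ h
      exact Subtype.ext (add_left_cancel h)
  have h2 : (1 - (S.card : ℝ) / Fintype.card X) ^ (2 ^ (n - c)) ≤
      Real.exp (-(S.card : ℝ) / 2 ^ c) := by
    have h3 : (1 - (S.card : ℝ) / Fintype.card X) ≤ Real.exp (-((S.card : ℝ) / Fintype.card X)) :=
      Real.one_sub_le_exp_neg _
    have h0 : 0 ≤ 1 - (S.card : ℝ) / Fintype.card X := by
      rw [sub_nonneg, div_le_one (by exact_mod_cast Fintype.card_pos)]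
      exact_mod_cast Finset.card_le_univ S
    calc (1 - (S.card : ℝ) / Fintype.card X) ^ (2 ^ (n - c))
        ≤ (Real.exp (-((S.card : ℝ) / Fintype.card X))) ^ (2 ^ (n - c)) :=
          pow_le_pow_left₀ h0 h3 _
      _ = Real.exp (-(S.card : ℝ) / 2 ^ c) := by
          rw [← Real.exp_nat_mul, hcardX]
          congr 1
          have : (2 : ℝ) ^ n = 2 ^ (n - c) * 2 ^ c := by
            rw [← pow_add, Nat.sub_add_cancel hc]
          push_cast
          rw [this]
          field_simp
  have h4 : Real.exp (-(S.card : ℝ) / 2 ^ c) < 1 / 2 ^ c := by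
    have : (1 : ℝ) / 2 ^ c = Real.exp (-(c * Real.log 2)) := by
      rw [Real.exp_neg, mul_comm, Real.exp_mul, Real.exp_log (by norm_num), one_div,
        Real.rpow_natCast]
    rw [this, Real.exp_lt_exp, neg_div, neg_lt_neg_iff, lt_div_iff₀ (by positivity)]
    exact hS
  have h5 : ((unc S V).card : ℝ) / Fintype.card X < 1 / 2 ^ c := (hU.trans h2).trans_lt h4
  have h6 : (1 : ℝ) / 2 ^ c ≤ ((unc S V).card : ℝ) / Fintype.card X := by
    rw [hcardX, div_le_div_iff₀ (by positivity) (by positivity), one_mul]
    have : (2 : ℝ) ^ n = 2 ^ (n - c) * 2 ^ c := by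
      rw [← pow_add, Nat.sub_add_cancel hc]
    push_cast
    rw [this]
    have h7 : ((2 : ℝ) ^ (n - c)) ≤ (unc S V).card := by exact_mod_cast h1
    exact mul_le_mul_of_nonneg_right h7 (by positivity)
  linarith

end Pool.Agent.Helper26.CovL
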