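import Pool.Agent.Helper26.CovL.Greedy

set_option autoImplicit false

/-!
Linear covering codes: families of syndromes, blow-up over a large field, and back to codes.
-/

namespace Pool.Agent.Helper26.CovL

open Module Classical

/-- Every element of `Q` is the sum of the values of `h` on an `r`-element set. -/
def Syn {ι Q : Type} [AddCommGroup Q] (h : ι → Q) (r : ℕ) : Prop :=
  ∀ q : Q, ∃ T : Finset ι, T.card = r ∧ ∑ i ∈ T, h i = q

/-- the indicator vector of a set -/
def ind {m : ℕ} (T : Finset (Fin m)) : Fin m → ZMod 2 := fun i => if i ∈ T then 1 else 0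

theorem ind_injective {m : ℕ} : Function.Injective (ind (m := m)) := by
  intro T T' h
  ext i
  have := congrFun h i
  simp only [ind] at this
  by_cases h1 : i ∈ T <;> by_cases h2 : i ∈ T' <;> simp_all

theorem ind_eq_sum {m : ℕ} (T : Finset (Fin m)) :
    ind T = ∑ i ∈ T, Pi.single i (1 : ZMod 2) := by
  ext j
  rw [Finset.sum_apply]
  simp only [ind, Pi.single_apply]
  rw [Finset.sum_ite_eq]

/-- The random (greedy) family. -/
theorem exists_syn (m r c : ℕ) (hcm : c ≤ m)
    (hc : (c : ℝ) * Real.log 2 * 2 ^ c < m.choose r) :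
    ∃ (Q : Type) (_ : AddCommGroup Q) (_ : Module (ZMod 2) Q) (_ : Fintype Q) (h : Fin m → Q),
      Fintype.card Q = 2 ^ c ∧ Syn h r := by
  let S : Finset (Fin m → ZMod 2) := (Finset.powersetCard r Finset.univ).image ind
  have hS : S.card = m.choose r := by
    rw [Finset.card_image_of_injective _ ind_injective, Finset.card_powersetCard, Finset.card_univ,
      Fintype.card_fin]
  have hfin : finrank (ZMod 2) (Fin m → ZMod 2) = m := by simp
  obtain ⟨V, hV, hcov⟩ := exists_cover (X := Fin m → ZMod 2) S c (by rw [hfin]; exact hcm)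
    (by rw [hS]; exact hc)
  rw [hfin] at hV
  refine ⟨(Fin m → ZMod 2) ⧸ V, inferInstance, inferInstance, inferInstance,
    fun i => V.mkQ (Pi.single i 1), ?_, ?_⟩
  · rw [Module.card_eq_pow_finrank (K := ZMod 2), ZMod.card]
    congr 1
    have := Submodule.finrank_quotient_add_finrank V
    rw [hfin] at this
    omega
  · intro q
    obtain ⟨x, rfl⟩ := V.mkQ_surjective q
    obtain ⟨v, hv, hvS⟩ := hcov x
    rw [Finset.mem_image] at hvS
    obtain ⟨T, hT, hTv⟩ := hvS
    refine ⟨T, (Finset.mem_powersetCard.1 hT).2, ?_⟩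
    rw [← map_sum, ← ind_eq_sum, hTv]
    rw [map_add]
    have : V.mkQ v = 0 := by
      rw [Submodule.mkQ_apply]
      exact (Submodule.Quotient.mk_eq_zero V).2 hv
    rw [this, add_zero]

/-- The blow-up over a field with at least as many elements as there are columns. -/
theorem Syn.blowup {ι Q F : Type} [Fintype ι] [AddCommGroup Q] [Field F] {h : ι → Q} {r : ℕ}
    (hs : Syn h r) (β : ι ↪ F) :
    Syn (fun p : ι × F => (h p.1, fun k : Fin r => p.2 * β p.1 ^ (k : ℕ))) r := by
  rintro ⟨q, w⟩
  obtain ⟨T, hT, hTq⟩ := hs q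
  let e : Fin r ≃ T := (T.equivFinOfCardEq hT).symm
  let A : Matrix (Fin r) (Fin r) F := Matrix.vandermonde (fun a => β (e a))
  have hA : IsUnit A.det := by
    rw [isUnit_iff_ne_zero, Matrix.det_vandermonde_ne_zero_iff]
    intro a b hab
    exact e.injective (Subtype.ext (β.injective hab))
  let ξ : Fin r → F := A.transpose⁻¹.mulVec w
  have hξ : A.transpose.mulVec ξ = w := by
    simp only [ξ]
    rw [Matrix.mulVec_mulVec, Matrix.mul_nonsing_inv _ (by rwa [Matrix.det_transpose]),
      Matrix.one_mulVec]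
  let g : Fin r → ι × F := fun a => ((e a : ι), ξ a)
  have hg : Function.Injective g := by
    intro a b hab
    exact e.injective (Subtype.ext (Prod.mk.inj hab).1)
  refine ⟨Finset.univ.image g, ?_, ?_⟩
  · rw [Finset.card_image_of_injective _ hg, Finset.card_univ, Fintype.card_fin]
  · rw [Finset.sum_image fun a _ b _ hab => hg hab]
    refine Prod.ext ?_ ?_
    · rw [Prod.fst_sum]
      simp only [g]
      rw [← hTq, ← Finset.sum_coe_sort T h]
      exact Fintype.sum_equiv e _ _ fun a => rfl
    · rw [Prod.snd_sum]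
      ext k
      rw [Finset.sum_apply]
      simp only [g]
      have := congrFun hξ k
      rw [← this, Matrix.mulVec, dotProduct]
      apply Finset.sum_congr rfl
      intro a _
      change ξ a * β ↑(e a) ^ (k : ℕ) = β ↑(e a) ^ (k : ℕ) * ξ a
      rw [mul_comm]

/-- From a family of syndromes to a linear code. -/
theorem Syn.code {ι Q : Type} [Fintype ι] [AddCommGroup Q] [Module (ZMod 2) Q] [Fintype Q]
    {h : ι → Q} {r c : ℕ} (hs : Syn h r) (hQ : Fintype.card Q = 2 ^ c) (n : ℕ)
    (hn : Fintype.card ι ≤ n) :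
    ∃ V : Submodule (ZMod 2) (Fin n → ZMod 2),
      (∀ y : Fin n → ZMod 2, ∃ v ∈ V, hammingNorm (y - v) ≤ r) ∧
      (Nat.card V : ℝ) * 2 ^ c = 2 ^ n := by
  obtain ⟨f⟩ : Nonempty (ι ↪ Fin n) := by
    apply Function.Embedding.nonempty_of_card_le
    simpa using hn
  let h' : Fin n → Q := fun j => if hj : ∃ i, f i = j then h hj.choose else 0
  have hh' : ∀ i, h' (f i) = h i := by
    intro i
    have hj : ∃ i', f i' = f i := ⟨i, rfl⟩
    simp only [h', dif_pos hj]
    rw [f.injective hj.choose_spec]
  let H : (Fin n → ZMod 2) →ₗ[ZMod 2] Q := Fintype.linearCombination (ZMod 2) h'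
  have hH : ∀ T : Finset ι, H (ind (T.map f)) = ∑ i ∈ T, h i := by
    intro T
    rw [ind_eq_sum, map_sum, Finset.sum_map]
    apply Finset.sum_congr rfl
    intro i _
    simp only [H]
    rw [Fintype.linearCombination_apply_single, one_smul, hh']
  have hsurj : Function.Surjective H := by
    intro q
    obtain ⟨T, _, hT⟩ := hs q
    exact ⟨ind (T.map f), by rw [hH, hT]⟩
  refine ⟨LinearMap.ker H, ?_, ?_⟩
  · intro y
    obtain ⟨T, hTr, hT⟩ := hs (H y)
    refine ⟨y - ind (T.map f), ?_, ?_⟩
    · rw [LinearMap.mem_ker, map_sub, hH, hT, sub_self]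
    · rw [sub_sub_cancel]
      have : hammingNorm (ind (T.map f)) ≤ (T.map f).card := by
        unfold hammingNorm
        apply Finset.card_le_card
        intro i hi
        simp only [ind, Finset.mem_filter, Finset.mem_univ, true_and, ne_eq, ite_eq_right_iff,
          one_ne_zero, imp_false, not_not] at hi
        exact hi
      rw [Finset.card_map, hTr] at this
      exact this
  · have h1 := LinearMap.finrank_range_add_finrank_ker H
    have h2 : finrank (ZMod 2) (Fin n → ZMod 2) = n := by simp
    have h3 : finrank (ZMod 2) (LinearMap.range H) = c := by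
      rw [LinearMap.range_eq_top.2 hsurj, finrank_top]
      have : Fintype.card Q = 2 ^ finrank (ZMod 2) Q := by
        rw [Module.card_eq_pow_finrank (K := ZMod 2) (V := Q), ZMod.card]
      rw [this] at hQ
      exact Nat.pow_right_injective le_rfl hQ
    have h4 : Nat.card (LinearMap.ker H) = 2 ^ finrank (ZMod 2) (LinearMap.ker H) := by
      rw [Nat.card_eq_fintype_card, Module.card_eq_pow_finrank (K := ZMod 2), ZMod.card]
    rw [h2, h3] at h1
    rw [h4]
    push_cast
    rw [← pow_add]
    congr 1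
    omega

/-- Random start, blow-up, and lengthening. -/
theorem exists_code (r m c t n : ℕ) (hcm : c ≤ m)
    (hc : (c : ℝ) * Real.log 2 * 2 ^ c < m.choose r) (ht : 1 ≤ t) (hmt : m ≤ 2 ^ t)
    (hn : m * 2 ^ t ≤ n) :
    ∃ V : Submodule (ZMod 2) (Fin n → ZMod 2),
      (∀ y : Fin n → ZMod 2, ∃ v ∈ V, hammingNorm (y - v) ≤ r) ∧
      (Nat.card V : ℝ) * 2 ^ (c + r * t) = 2 ^ n := by
  obtain ⟨Q, _, _, _, h, hQ, hs⟩ := exists_syn m r c hcm hc
  have : Fact (Nat.Prime 2) := ⟨Nat.prime_two⟩
  let F := GaloisField 2 t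
  have : Finite F := inferInstance
  have : Fintype F := Fintype.ofFinite _
  have hF : Fintype.card F = 2 ^ t := by
    rw [← Nat.card_eq_fintype_card]
    exact GaloisField.card 2 t (by omega)
  obtain ⟨β⟩ : Nonempty (Fin m ↪ F) := by
    apply Function.Embedding.nonempty_of_card_le
    rw [hF, Fintype.card_fin]
    exact hmt
  have hs' := hs.blowup β
  refine hs'.code (c := c + r * t) ?_ n ?_
  · rw [Fintype.card_prod, hQ, Fintype.card_fun, hF, Fintype.card_fin, ← pow_mul, ← pow_add,
      mul_comm t r]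
  · rw [Fintype.card_prod, hF, Fintype.card_fin]
    exact hn

end Pool.Agent.Helper26.CovL
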